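import Mathlib
import Pool.Agent.N741.HB.Stm4
import Pool.Agent.Y902.GN.Lp

/-!
# HC/14: constant ratios in a block whose sum is, up to small factors, a high power
-/

set_option autoImplicit false

namespace Pool.Agent.N945.HC

open Filter MvPolynomial Pool.Agent.Y902.GN Pool.Agent.N741.HB Pool.Agent.N741.HC

/-! ### large sets -/

theorem big_or_few {Y : ℕ → ℕ} (hY : ∀ m : ℕ, ∀ᶠ ν in (Uf : Filter ℕ), m ≤ Y ν) {α : Type*}
    (I : ℕ → Finset α) : Big Y I ∨ Few Y (fun ν => (I ν).card) := by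
  by_cases h : Big Y I
  · exact Or.inl h
  · right
    intro m
    have h1 : ∀ᶠ ν in (Uf : Filter ℕ), ¬ (Y ν + 2 ≤ (I ν).card ^ (m * 2)) := by
      rw [ev_not]
      intro h2
      exact h ⟨m * 2, h2⟩
    filter_upwards [h1, hY 1] with ν a b
    by_contra hc
    push Not at hc
    apply a
    rw [pow_mul]
    calc Y ν + 2 ≤ (Y ν + 1) ^ 2 := by nlinarith
      _ ≤ ((I ν).card ^ m) ^ 2 := Nat.pow_le_pow_left hc 2

theorem big_const_mul {Y : ℕ → ℕ} (hY : ∀ m : ℕ, ∀ᶠ ν in (Uf : Filter ℕ), m ≤ Y ν) {α β : Type*}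
    {A : ℕ → Finset α} {B : ℕ → Finset β} (k : ℕ) (h : Big Y A)
    (hAB : ∀ᶠ ν in (Uf : Filter ℕ), (A ν).card ≤ k * (B ν).card) : Big Y B := by
  obtain ⟨m, hm⟩ := h
  refine ⟨m * 2, ?_⟩
  filter_upwards [hm, hAB, hY ((k ^ m) ^ 2)] with ν h1 h2 h3
  have h4 : Y ν + 2 ≤ k ^ m * (B ν).card ^ m := by
    rw [← mul_pow]
    exact h1.trans (Nat.pow_le_pow_left h2 m)
  have h5 : (Y ν + 2) * (Y ν + 2) ≤ (Y ν + 2) * ((B ν).card ^ (m * 2)) := by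
    calc (Y ν + 2) * (Y ν + 2) ≤ (k ^ m * (B ν).card ^ m) * (k ^ m * (B ν).card ^ m) :=
          Nat.mul_le_mul h4 h4
      _ = (k ^ m) ^ 2 * (B ν).card ^ (m * 2) := by rw [pow_mul]; ring
      _ ≤ _ := Nat.mul_le_mul_right _ (by omega)
  exact Nat.le_of_mul_le_mul_left h5 (by omega)

theorem Y'_ge (y C : ℕ) : y + 2 ≤ (y + 2) ^ (C + 2) := by
  calc y + 2 = (y + 2) ^ 1 := (pow_one _).symm
    _ ≤ _ := Nat.pow_le_pow_right (by omega) (by omega)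

theorem big_up {Y : ℕ → ℕ} (C : ℕ) {α : Type*} {A : ℕ → Finset α} (h : Big Y A) :
    Big (fun ν => (Y ν + 2) ^ (C + 2)) A := by
  obtain ⟨m, hm⟩ := h
  refine ⟨m * (C + 3), ?_⟩
  filter_upwards [hm] with ν h1
  rw [pow_mul]
  refine le_trans ?_ (Nat.pow_le_pow_left h1 (C + 3))
  have h2 := Y'_ge (Y ν) C
  rw [pow_succ _ (C + 2)]
  nlinarith

theorem big_down {Y : ℕ → ℕ} (C : ℕ) {α : Type*} {A : ℕ → Finset α}
    (h : Big (fun ν => (Y ν + 2) ^ (C + 2)) A) : Big Y A := by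
  obtain ⟨m, hm⟩ := h
  refine ⟨m, ?_⟩
  filter_upwards [hm] with ν h1
  have h2 := Y'_ge (Y ν) C
  omega

/-! ### data -/

/-- the data at one point -/
structure DT (m k : ℕ) where
  α : ℂ
  lam : ℂ
  mu : ℂ
  D : ℕ
  mm : Fin k → ℤ
  vb : Fin m → Fin k → ℤ
  vs : Fin m → Fin k → ℤ
  v0 : Fin k → ℤ
  ζ : Fin k → ℤ

instance (m k : ℕ) : Nonempty (DT m k) :=
  ⟨⟨0, 0, 0, 0, fun _ => 0, fun _ _ => 0, fun _ _ => 0, fun _ => 0, fun _ => 0⟩⟩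

/-- their properties -/
structure DP {m k : ℕ} (C Y e : ℕ) (b s : Fin m → ℂ) (d w r : ℕ) (u : Fin m → ℤ) (x : DT m k) :
    Prop where
  lam0 : x.lam ≠ 0
  mu0 : x.mu ≠ 0
  D0 : x.D ≠ 0
  Dbd : x.D ≤ (Y + 2) ^ C
  mbd : ∀ l, |x.mm l| ≤ ((Y : ℤ) + 2) ^ C
  vbbd : ∀ i l, |x.vb i l| ≤ ((Y : ℤ) + 2) ^ C
  vsbd : ∀ i l, |x.vs i l| ≤ ((Y : ℤ) + 2) ^ C
  v0bd : ∀ l, |x.v0 l| ≤ ((Y : ℤ) + 2) ^ C
  root : x.α ^ k + vl x.α x.mm = 0
  lin : ∀ c : Fin k → ℤ, vl x.α c = 0 → c = 0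
  evb : ∀ i, vl x.α (x.vb i) = x.lam * b i
  evs : ∀ i, vl x.α (x.vs i) = x.mu * s i
  ev0 : vl x.α x.v0 ≠ 0
  zbd : ∀ l, |x.ζ l| ≤ 2 ^ w
  eq : ((x.D : ℂ) ^ r * vl x.α x.v0 ^ (r - 1) * ∑ i, (u i : ℂ) *
        (vl x.α (x.vs i) * vl x.α (x.vb i) ^ d)) ^ e = vl x.α x.ζ ^ r

/-! ### coordinates -/

/-- the indices of the coordinates -/
abbrev Idx (m k : ℕ) : Type :=
  Unit ⊕ Fin k ⊕ (Fin m × Fin k) ⊕ (Fin m × Fin k) ⊕ Fin k ⊕ Unit

/-- the coordinates -/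
def co {m k : ℕ} (M : ℤ) (x : DT m k) : Idx m k → ℤ
  | .inl _ => M
  | .inr (.inl l) => M + x.mm l
  | .inr (.inr (.inl p)) => M + x.vb p.1 p.2
  | .inr (.inr (.inr (.inl p))) => M + x.vs p.1 p.2
  | .inr (.inr (.inr (.inr (.inl l)))) => M + x.v0 l
  | .inr (.inr (.inr (.inr (.inr _)))) => M + x.D

/-- the number of coordinates -/
abbrev NN (m k : ℕ) : ℕ := Fintype.card (Idx m k)

/-- the numbering -/
noncomputable def en (m k : ℕ) : Idx m k ≃ Fin (NN m k) := Fintype.equivFin _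

/-- the point -/
noncomputable def pt {m k : ℕ} (M : ℤ) (x : DT m k) : Fin (NN m k) → ℤ :=
  fun q => co M x ((en m k).symm q)

noncomputable def ixo (m k : ℕ) : Fin (NN m k) := en m k (.inl ())
noncomputable def ixm (m k : ℕ) : Fin k → Fin (NN m k) := fun l => en m k (.inr (.inl l))
noncomputable def ixb (m k : ℕ) : Fin m → Fin k → Fin (NN m k) :=
  fun i l => en m k (.inr (.inr (.inl (i, l))))
noncomputable def ixs (m k : ℕ) : Fin m → Fin k → Fin (NN m k) :=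
  fun i l => en m k (.inr (.inr (.inr (.inl (i, l)))))
noncomputable def ix0 (m k : ℕ) : Fin k → Fin (NN m k) :=
  fun l => en m k (.inr (.inr (.inr (.inr (.inl l)))))
noncomputable def ixD (m k : ℕ) : Fin k → Fin (NN m k) :=
  fun l => if (l : ℕ) = 0 then en m k (.inr (.inr (.inr (.inr (.inr ()))))) else ixo m k

variable {m k : ℕ} (M : ℤ) (x : DT m k)

theorem cvm : cv (ixo m k) (ixm m k) (pt M x) = x.mm := by
  funext l; simp [cv, ixo, ixm, pt, co]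

theorem cvb (i : Fin m) : cv (ixo m k) (ixb m k i) (pt M x) = x.vb i := by
  funext l; simp [cv, ixo, ixb, pt, co]

theorem cvs (i : Fin m) : cv (ixo m k) (ixs m k i) (pt M x) = x.vs i := by
  funext l; simp [cv, ixo, ixs, pt, co]

theorem cv0 : cv (ixo m k) (ix0 m k) (pt M x) = x.v0 := by
  funext l; simp [cv, ixo, ix0, pt, co]

theorem cvD : cv (ixo m k) (ixD m k) (pt M x) =
    fun l : Fin k => if (l : ℕ) = 0 then (x.D : ℤ) else 0 := by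
  funext l
  unfold cv ixD
  split_ifs
  · simp [ixo, pt, co]
  · simp

theorem vlD (hk : 1 ≤ k) (a : ℂ) :
    vl a (fun l : Fin k => if (l : ℕ) = 0 then (x.D : ℤ) else 0) = x.D := by
  unfold vl
  rw [Finset.sum_eq_single (⟨0, hk⟩ : Fin k)]
  · simp
  · intro l _ hl
    have : (l : ℕ) ≠ 0 := by
      intro h
      apply hl
      exact Fin.ext h
    simp [this]
  · intro h
    exact absurd (Finset.mem_univ _) h

theorem pt_bd {C Y e : ℕ} {b s : Fin m → ℂ} {d w r : ℕ} {u : Fin m → ℤ}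
    (h : DP C Y e b s d w r u x) (hM : M = ((Y : ℤ) + 2) ^ C + 1) (q : Fin (NN m k)) :
    pt M x q ≠ 0 ∧ |pt M x q| ≤ (((Y + 2) ^ (C + 2) : ℕ) : ℤ) := by
  have a0 : (1 : ℤ) ≤ ((Y : ℤ) + 2) ^ C := one_le_pow₀ (by omega)
  have key : ∀ z : ℤ, |z| ≤ ((Y : ℤ) + 2) ^ C → M + z ≠ 0 ∧
      |M + z| ≤ (((Y + 2) ^ (C + 2) : ℕ) : ℤ) := by
    intro z hz
    rw [abs_le] at hz
    have h1 : 1 ≤ M + z := by linarith [hz.1]
    refine ⟨by omega, ?_⟩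
    rw [abs_of_nonneg (by linarith)]
    push_cast
    rw [pow_add]
    nlinarith [hz.2, sq_nonneg ((Y : ℤ)), Int.natCast_nonneg Y]
  have hz0 : M + 0 ≠ 0 ∧ |M + 0| ≤ (((Y + 2) ^ (C + 2) : ℕ) : ℤ) := key 0 (by simp; linarith)
  unfold pt
  rcases (en m k).symm q with _ | l | p | p | l | _
  · simpa [co] using hz0
  · exact key _ (h.mbd l)
  · exact key _ (h.vbbd p.1 p.2)
  · exact key _ (h.vsbd p.1 p.2)
  · exact key _ (h.v0bd l)
  · refine key _ ?_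
    rw [abs_of_nonneg (Int.natCast_nonneg _)]
    exact_mod_cast h.Dbd

theorem roots_card (mm : Fin k → ℤ) (S : Finset ℂ) (hS : ∀ a ∈ S, a ^ k + vl a mm = 0) :
    S.card ≤ k := by
  classical
  set P : Polynomial ℂ := Polynomial.X ^ k +
    ∑ l : Fin k, Polynomial.C ((mm l : ℂ)) * Polynomial.X ^ (l : ℕ) with hP
  have hdeg : (∑ l : Fin k, Polynomial.C ((mm l : ℂ)) * Polynomial.X ^ (l : ℕ) :
      Polynomial ℂ).degree < k := Polynomial.degree_sum_fin_lt fun l => (mm l : ℂ)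
  have hmon : P.Monic := Polynomial.monic_X_pow_add hdeg
  have hd : P.degree = k := by
    rw [hP, Polynomial.degree_add_eq_left_of_degree_lt, Polynomial.degree_X_pow]
    rw [Polynomial.degree_X_pow]
    exact hdeg
  have hnd : P.natDegree = k := Polynomial.natDegree_eq_of_degree_eq_some hd
  have hsub : S ⊆ P.roots.toFinset := by
    intro a ha
    rw [Multiset.mem_toFinset, Polynomial.mem_roots hmon.ne_zero, Polynomial.IsRoot.def, hP]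
    have h1 := hS a ha
    rw [Polynomial.eval_add, Polynomial.eval_pow, Polynomial.eval_X, Polynomial.eval_finsetSum]
    rw [← h1]
    congr 1
    unfold vl
    refine Finset.sum_congr rfl fun l _ => ?_
    simp
  calc S.card ≤ P.roots.toFinset.card := Finset.card_le_card hsub
    _ ≤ Multiset.card P.roots := Multiset.toFinset_card_le _
    _ ≤ P.natDegree := Polynomial.card_roots' P
    _ = k := hnd

/-! ### sections -/

theorem sect {α β : Type*} [DecidableEq β] [Nonempty α] (T : Finset α) (f : α → β) :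
    ∃ g : β → α, ∀ y ∈ T.image f, g y ∈ T ∧ f (g y) = y := by
  have h : ∀ y, y ∈ T.image f → ∃ a, a ∈ T ∧ f a = y := fun y hy => Finset.mem_image.1 hy
  choose! g hg using h
  exact ⟨g, fun y hy => hg y hy⟩

/-! ### the theorem for fixed degrees -/

theorem cstP_aux (h : S_blkA) {Y : ℕ → ℕ} (hY : ∀ m : ℕ, ∀ᶠ ν in (Uf : Filter ℕ), m ≤ Y ν)
    {ι : Type} {T : ℕ → Finset ι} (hT : Big Y T) {k e C m : ℕ} (hk : 1 ≤ k) (he : 1 ≤ e)
    (b s : ℕ → ι → Fin m → ℂ) (d w r : ℕ → ℕ) (u : ℕ → Fin m → ℤ) (hd : Few Y d) (hw : Few Y w)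
    (hr : Few Y r) (hd' : ∀ c : ℕ, ∀ᶠ ν in (Uf : Filter ℕ), c ≤ d ν)
    (hr' : ∀ c : ℕ, ∀ᶠ ν in (Uf : Filter ℕ), c ≤ r ν)
    (hu : ∀ᶠ ν in (Uf : Filter ℕ), ∀ i, u ν i ≠ 0 ∧ |u ν i| ≤ 2 ^ w ν)
    (hb : ∀ᶠ ν in (Uf : Filter ℕ), ∀ τ ∈ T ν, (∀ i, b ν τ i ≠ 0 ∧ s ν τ i ≠ 0) ∧
      (∀ J : Finset (Fin m), J.Nonempty → ∑ i ∈ J, (u ν i : ℂ) * (s ν τ i * b ν τ i ^ d ν) ≠ 0))
    (x : ℕ → ι → DT m k) (hx : ∀ᶠ ν in (Uf : Filter ℕ), ∀ τ ∈ T ν,
      DP C (Y ν) e (b ν τ) (s ν τ) (d ν) (w ν) (r ν) (u ν) (x ν τ))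
    (hinj : ∀ᶠ ν in (Uf : Filter ℕ), ∀ τ ∈ T ν, ∀ τ' ∈ T ν,
      (∀ i i', b ν τ i / b ν τ i' = b ν τ' i / b ν τ' i') → τ = τ') :
    ∃ T' : ℕ → Finset ι, (∀ᶠ ν in (Uf : Filter ℕ), T' ν ⊆ T ν) ∧ Big Y T' ∧
      ∀ i i', ∀ᶠ ν in (Uf : Filter ℕ), ∀ τ ∈ T' ν, ∀ τ' ∈ T' ν,
        b ν τ i * b ν τ' i' = b ν τ' i * b ν τ i' := by
  classical
  have hne : Nonempty ι := by
    obtain ⟨ν, τ, -⟩ := hT.nonempty.exists
    exact ⟨τ⟩
  obtain ⟨M, hM⟩ : ∃ M : ℕ → ℤ, ∀ ν, M ν = ((Y ν : ℤ) + 2) ^ C + 1 := ⟨_, fun _ => rfl⟩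
  obtain ⟨f, hf⟩ : ∃ f : ℕ → ι → Fin (NN m k) → ℤ, ∀ ν τ, f ν τ = pt (M ν) (x ν τ) :=
    ⟨_, fun _ _ => rfl⟩
  choose g hg using fun ν => sect (T ν) (f ν)
  obtain ⟨Om, hOmd⟩ : ∃ Om : ℕ → Finset (Fin (NN m k) → ℤ), ∀ ν, Om ν = (T ν).image (f ν) :=
    ⟨_, fun _ => rfl⟩
  have hgm : ∀ ν, ∀ t ∈ Om ν, g ν t ∈ T ν := fun ν t ht => (hg ν t (hOmd ν ▸ ht)).1
  have hgf : ∀ ν, ∀ t ∈ Om ν, pt (M ν) (x ν (g ν t)) = t := fun ν t ht => by
    rw [← hf]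
    exact (hg ν t (hOmd ν ▸ ht)).2
  -- the number of points
  have hOm : Big Y Om := by
    refine big_const_mul hY k hT ?_
    filter_upwards [hb, hx, hinj] with ν a1 a2 a3
    rw [hOmd]
    refine Finset.card_le_mul_card_image _ _ fun t ht => ?_
    have hin : Set.InjOn (fun τ => (x ν τ).α) ((T ν).filter fun τ => f ν τ = t) := by
      intro τ hτ τ' hτ' hh
      rw [Finset.coe_filter, Set.mem_ofPred_eq] at hτ hτ'
      have hh' : (x ν τ).α = (x ν τ').α := hh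
      apply a3 τ hτ.1 τ' hτ'.1
      have key : ∀ i, (x ν τ).lam * b ν τ i = (x ν τ').lam * b ν τ' i := by
        intro i
        rw [← (a2 τ hτ.1).evb i, ← (a2 τ' hτ'.1).evb i, hh', ← cvb (M ν) (x ν τ) i,
          ← cvb (M ν) (x ν τ') i, ← hf, ← hf, hτ.2, hτ'.2]
      intro i i'
      rw [← mul_div_mul_left (b ν τ i) (b ν τ i') (a2 τ hτ.1).lam0, key, key,
        mul_div_mul_left _ _ (a2 τ' hτ'.1).lam0]
    rw [← Finset.card_image_of_injOn hin]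
    refine roots_card (cv (ixo m k) (ixm m k) t) _ fun a ha => ?_
    obtain ⟨τ, hτ, rfl⟩ := Finset.mem_image.1 ha
    rw [Finset.mem_filter] at hτ
    rw [← hτ.2, hf, cvm]
    exact (a2 τ hτ.1).root
  -- the algebraic integers
  obtain ⟨A, hAo, hAm, hAa⟩ : ∃ A : AD Om k, A.o = ixo m k ∧ A.μ = ixm m k ∧
      A.α = fun ν t => (x ν (g ν t)).α := by
    refine ⟨⟨ixo m k, ixm m k, fun ν t => (x ν (g ν t)).α, hk, ?_, ?_⟩, rfl, rfl, rfl⟩
    · filter_upwards [hx] with ν a t ht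
      have h1 := cvm (M ν) (x ν (g ν t))
      rw [hgf ν t ht] at h1
      rw [h1]
      exact (a _ (hgm ν t ht)).root
    · filter_upwards [hx] with ν a t ht
      exact (a _ (hgm ν t ht)).lin
  have eb : ∀ ν, ∀ t ∈ Om ν, ∀ i, cv A.o (ixb m k i) t = (x ν (g ν t)).vb i := by
    intro ν t ht i
    have h1 := cvb (M ν) (x ν (g ν t)) i
    rwa [hgf ν t ht, ← hAo] at h1
  have es : ∀ ν, ∀ t ∈ Om ν, ∀ i, cv A.o (ixs m k i) t = (x ν (g ν t)).vs i := by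
    intro ν t ht i
    have h1 := cvs (M ν) (x ν (g ν t)) i
    rwa [hgf ν t ht, ← hAo] at h1
  have e0 : ∀ ν, ∀ t ∈ Om ν, cv A.o (ix0 m k) t = (x ν (g ν t)).v0 := by
    intro ν t ht
    have h1 := cv0 (M ν) (x ν (g ν t))
    rwa [hgf ν t ht, ← hAo] at h1
  have eD : ∀ ν, ∀ t ∈ Om ν, vl (A.α ν t) (cv A.o (ixD m k) t) = ((x ν (g ν t)).D : ℂ) := by
    intro ν t ht
    have h1 := cvD (M ν) (x ν (g ν t))
    rw [hgf ν t ht, ← hAo] at h1
    rw [h1, vlD _ hk]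
  have vb : ∀ᶠ ν in (Uf : Filter ℕ), ∀ t ∈ Om ν, ∀ i, vl (A.α ν t) (cv A.o (ixb m k i) t) =
      (x ν (g ν t)).lam * b ν (g ν t) i := by
    filter_upwards [hx] with ν a t ht i
    rw [eb ν t ht, hAa]
    exact (a _ (hgm ν t ht)).evb i
  have vs : ∀ᶠ ν in (Uf : Filter ℕ), ∀ t ∈ Om ν, ∀ i, vl (A.α ν t) (cv A.o (ixs m k i) t) =
      (x ν (g ν t)).mu * s ν (g ν t) i := by
    filter_upwards [hx] with ν a t ht i
    rw [es ν t ht, hAa]
    exact (a _ (hgm ν t ht)).evs i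
  -- the sizes
  obtain ⟨Y', hY'd⟩ : ∃ Y' : ℕ → ℕ, ∀ ν, Y' ν = (Y ν + 2) ^ (C + 2) := ⟨_, fun _ => rfl⟩
  have hYe : Y' = fun ν => (Y ν + 2) ^ (C + 2) := funext hY'd
  have hYY : ∀ᶠ ν in (Uf : Filter ℕ), Y ν ≤ Y' ν := Filter.Eventually.of_forall fun ν => by
    have := Y'_ge (Y ν) C
    rw [hY'd]
    omega
  have hY' : ∀ m : ℕ, ∀ᶠ ν in (Uf : Filter ℕ), m ≤ Y' ν := by
    intro c
    filter_upwards [hY c, hYY] with ν a1 a2
    exact a1.trans a2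
  have hOm' : Big Y' Om := by
    rw [hYe]
    exact big_up C hOm
  have hbdd : Bdd Y' Om := by
    filter_upwards [hx] with ν a t ht j
    have h1 := pt_bd (M ν) (x ν (g ν t)) (a _ (hgm ν t ht)) (hM ν) j
    rw [hgf ν t ht] at h1
    rw [hY'd]
    exact h1
  obtain ⟨Om', hO1, hO2, hO3⟩ := h Y' (NN m k) Om hY' hOm' hbdd k A m 2 (ixb m k) (ixs m k)
    ![ixD m k, ix0 m k] (by
      filter_upwards [hx, hb, vb, vs] with ν a1 a2 a3 a4 t ht
      have h1 := a1 _ (hgm ν t ht)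
      have h2 := (a2 _ (hgm ν t ht)).1
      refine ⟨fun i => ?_, fun i => ?_, fun j => ?_⟩
      · rw [a3 t ht]
        exact mul_ne_zero h1.lam0 (h2 i).1
      · rw [a4 t ht]
        exact mul_ne_zero h1.mu0 (h2 i).2
      · revert j
        rw [Fin.forall_fin_two]
        refine ⟨?_, ?_⟩
        · show vl (A.α ν t) (cv A.o (ixD m k) t) ≠ 0
          rw [eD ν t ht]
          exact Nat.cast_ne_zero.2 h1.D0
        · show vl (A.α ν t) (cv A.o (ix0 m k) t) ≠ 0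
          rw [e0 ν t ht, hAa]
          exact h1.ev0)
    d w r (fun ν => ![r ν, r ν - 1]) u (hd.mono_Y hYY) (hw.mono_Y hYY) (hr.mono_Y hYY) (by
      rw [Fin.forall_fin_two]
      exact ⟨hr.mono_Y hYY, (hr.mono (Filter.Eventually.of_forall fun ν =>
        Nat.sub_le (r ν) 1)).mono_Y hYY⟩)
    hd' hr' hu (by
      filter_upwards [hx, hb, vb, vs] with ν a1 a2 a3 a4 t ht J hJ
      have h1 := a1 _ (hgm ν t ht)
      have h2 := (a2 _ (hgm ν t ht)).2 J hJ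
      have h3 : ∑ i ∈ J, (u ν i : ℂ) * (vl (A.α ν t) (cv A.o (ixs m k i) t) *
          vl (A.α ν t) (cv A.o (ixb m k i) t) ^ d ν) =
          (x ν (g ν t)).mu * (x ν (g ν t)).lam ^ d ν *
            ∑ i ∈ J, (u ν i : ℂ) * (s ν (g ν t) i * b ν (g ν t) i ^ d ν) := by
        rw [Finset.mul_sum]
        refine Finset.sum_congr rfl fun i _ => ?_
        rw [a3 t ht, a4 t ht, mul_pow]
        ring
      rw [h3]
      exact mul_ne_zero (mul_ne_zero h1.mu0 (pow_ne_zero _ h1.lam0)) h2)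
    e (fun ν t => (x ν (g ν t)).ζ) he (by
      filter_upwards [hx] with ν a1 t ht
      have h1 := a1 _ (hgm ν t ht)
      refine ⟨h1.zbd, ?_⟩
      rw [Fin.prod_univ_two]
      show ((vl (A.α ν t) (cv A.o (ixD m k) t) ^ r ν * vl (A.α ν t) (cv A.o (ix0 m k) t) ^
        (r ν - 1)) * _) ^ e = _
      have h2 : ∑ i, (u ν i : ℂ) * (vl (A.α ν t) (cv A.o (ixs m k i) t) *
          vl (A.α ν t) (cv A.o (ixb m k i) t) ^ d ν) = ∑ i, (u ν i : ℂ) *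
          (vl (x ν (g ν t)).α ((x ν (g ν t)).vs i) *
          vl (x ν (g ν t)).α ((x ν (g ν t)).vb i) ^ d ν) := by
        refine Finset.sum_congr rfl fun i _ => ?_
        rw [eb ν t ht, es ν t ht, hAa]
      rw [h2, eD ν t ht, e0 ν t ht, hAa]
      exact h1.eq)
  -- the subset
  have hsub : ∀ᶠ ν in (Uf : Filter ℕ), (Om' ν).image (g ν) ⊆ T ν := by
    filter_upwards [hO1] with ν a τ hτ
    obtain ⟨t, ht, rfl⟩ := Finset.mem_image.1 hτ
    exact hgm ν t (a ht)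
  refine ⟨fun ν => (Om' ν).image (g ν), hsub, ?_, fun i i' => ?_⟩
  · have h1 := big_image hO2 g (by
      filter_upwards [hO1] with ν a t ht t' ht' hh
      rw [← hgf ν t (a ht), ← hgf ν t' (a ht'), hh])
    rw [hYe] at h1
    exact big_down C h1
  · filter_upwards [hO1, hO3 i i', vb, hx] with ν a1 a2 a3 a4 τ hτ τ' hτ'
    obtain ⟨t, ht, rfl⟩ := Finset.mem_image.1 hτ
    obtain ⟨t', ht', rfl⟩ := Finset.mem_image.1 hτ'
    have h1 := a2 t ht t' ht'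
    rw [a3 t (a1 ht), a3 t' (a1 ht'), a3 t (a1 ht), a3 t' (a1 ht')] at h1
    have l1 := (a4 _ (hgm ν t (a1 ht))).lam0
    have l2 := (a4 _ (hgm ν t' (a1 ht'))).lam0
    have h2 : (x ν (g ν t)).lam * (x ν (g ν t')).lam *
        (b ν (g ν t) i * b ν (g ν t') i') = (x ν (g ν t)).lam * (x ν (g ν t')).lam *
        (b ν (g ν t') i * b ν (g ν t) i') := by
      linear_combination h1
    exact mul_left_cancel₀ (mul_ne_zero l1 l2) h2

/-- **HC/14**: constant ratios in a block whose sum is, up to small factors, a high power. -/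
theorem cstP (h : S_blkA) : S_cstP := by
  classical
  intro Y hY ι T hT κ C m b s d w r u hd hw hr hd' hr' hu hdat
  have hne : Nonempty ι := by
    obtain ⟨ν, τ, -⟩ := hT.nonempty.exists
    exact ⟨τ⟩
  obtain ⟨ρ, hρ⟩ : ∃ ρ : ℕ → ι → Fin m → Fin m → ℂ,
    ∀ ν τ, ρ ν τ = fun i i' => b ν τ i / b ν τ i' := ⟨_, fun _ _ => rfl⟩
  rcases big_or_few hY (fun ν => (T ν).image (ρ ν)) with hB | hF
  swap
  · obtain ⟨T', h1, h2, h3⟩ := hT.fiber ρ (fun ν => (T ν).image (ρ ν))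
      (Filter.Eventually.of_forall fun ν τ hτ => Finset.mem_image_of_mem _ hτ) hF
    refine ⟨T', h1, h2, fun i i' => ?_⟩
    filter_upwards [h1, h3, hdat] with ν a1 a3 a4 τ hτ τ' hτ'
    have b1 := (a4 τ (a1 hτ)).1
    have b2 := (a4 τ' (a1 hτ')).1
    have b3 := congrFun (congrFun (a3 τ hτ τ' hτ') i) i'
    rw [hρ, hρ] at b3
    simp only at b3
    rwa [div_eq_div_iff (b1 i').1 (b2 i').1] at b3
  · choose g hg using fun ν => sect (T ν) (ρ ν)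
    obtain ⟨T1, hT1⟩ : ∃ T1 : ℕ → Finset ι, ∀ ν, T1 ν = ((T ν).image (ρ ν)).image (g ν) :=
      ⟨_, fun _ => rfl⟩
    have hT1s : ∀ ν, T1 ν ⊆ T ν := by
      intro ν τ hτ
      rw [hT1] at hτ
      obtain ⟨y, hy, rfl⟩ := Finset.mem_image.1 hτ
      exact (hg ν y hy).1
    have hT1i : ∀ ν, ∀ τ ∈ T1 ν, ∀ τ' ∈ T1 ν, ρ ν τ = ρ ν τ' → τ = τ' := by
      intro ν τ hτ τ' hτ' hh
      rw [hT1] at hτ hτ'
      obtain ⟨y, hy, rfl⟩ := Finset.mem_image.1 hτ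
      obtain ⟨y', hy', rfl⟩ := Finset.mem_image.1 hτ'
      rw [(hg ν y hy).2, (hg ν y' hy').2] at hh
      rw [hh]
    have hT1b : Big Y T1 := by
      rw [show T1 = fun ν => ((T ν).image (ρ ν)).image (g ν) from funext hT1]
      refine big_image hB g (Filter.Eventually.of_forall fun ν y hy y' hy' hh => ?_)
      have e1 := (hg ν y hy).2
      have e2 := (hg ν y' hy').2
      rw [hh] at e1
      exact e1.symm.trans e2
    -- the degrees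
    obtain ⟨P, hP⟩ : ∃ P : ℕ → ι → Fin (κ + 1) × Fin (κ + 1) → Prop, ∀ ν τ p, P ν τ p ↔
      (1 ≤ (p.1 : ℕ) ∧ 1 ≤ (p.2 : ℕ) ∧ ∃ x : DT m p.1,
        DP C (Y ν) p.2 (b ν τ) (s ν τ) (d ν) (w ν) (r ν) (u ν) x) := ⟨_, fun _ _ _ => Iff.rfl⟩
    have hPe : ∀ᶠ ν in (Uf : Filter ℕ), ∀ τ ∈ T1 ν, P ν τ (Classical.epsilon (P ν τ)) := by
      filter_upwards [hdat] with ν a τ hτ
      obtain ⟨-, -, Q, e, ζ, he, heκ, hz, heq⟩ := a τ (hT1s ν hτ)
      apply Classical.epsilon_spec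
      refine ⟨(⟨Q.k, Nat.lt_succ_of_le Q.hk⟩, ⟨e, Nat.lt_succ_of_le heκ⟩), ?_⟩
      rw [hP]
      exact ⟨Q.hk1, he, ⟨Q.α, Q.lam, Q.mu, Q.D, Q.mm, Q.vb, Q.vs, Q.v0, ζ⟩,
        ⟨Q.lam0, Q.mu0, Q.D0, Q.Dbd, Q.mbd, Q.vbbd, Q.vsbd, Q.v0bd, Q.root, Q.lin, Q.evb, Q.evs,
          Q.ev0, hz, heq⟩⟩
    obtain ⟨T2, h1, h2, h3⟩ := hT1b.fiber (fun ν τ => Classical.epsilon (P ν τ))
      (fun _ => Finset.univ) (Filter.Eventually.of_forall fun ν τ hτ => Finset.mem_univ _)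
      (Few.const hY _)
    have h4 : ∃ p : Fin (κ + 1) × Fin (κ + 1), ∀ᶠ ν in (Uf : Filter ℕ), ∀ τ ∈ T2 ν, P ν τ p := by
      apply ev_exists
      filter_upwards [h1, h3, hPe, h2.nonempty] with ν a1 a3 a4 a5
      obtain ⟨τ0, hτ0⟩ := a5
      refine ⟨Classical.epsilon (P ν τ0), fun τ hτ => ?_⟩
      have h5 := a4 τ (a1 hτ)
      rwa [a3 τ hτ τ0 hτ0] at h5
    obtain ⟨⟨⟨k, hkk⟩, ⟨e, hee⟩⟩, h5⟩ := h4
    simp only [hP] at h5
    have hk : 1 ≤ k := by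
      obtain ⟨ν, a1, τ, hτ⟩ := (h5.and h2.nonempty).exists
      exact (a1 τ hτ).1
    have he : 1 ≤ e := by
      obtain ⟨ν, a1, τ, hτ⟩ := (h5.and h2.nonempty).exists
      exact (a1 τ hτ).2.1
    obtain ⟨T', g1, g2, g3⟩ := cstP_aux h hY h2 hk he b s d w r u hd hw hr hd' hr' hu
      (by
        filter_upwards [hdat, h1] with ν a1 a2 τ hτ
        exact ⟨(a1 τ (hT1s ν (a2 hτ))).1, (a1 τ (hT1s ν (a2 hτ))).2.1⟩)
      (fun ν τ => Classical.epsilon fun x : DT m k =>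
        DP C (Y ν) e (b ν τ) (s ν τ) (d ν) (w ν) (r ν) (u ν) x)
      (by
        filter_upwards [h5] with ν a1 τ hτ
        exact Classical.epsilon_spec (a1 τ hτ).2.2)
      (by
        filter_upwards [h1] with ν a1 τ hτ τ' hτ' hh
        apply hT1i ν τ (a1 hτ) τ' (a1 hτ')
        rw [hρ, hρ]
        funext i i'
        exact hh i i')
    refine ⟨T', ?_, g2, g3⟩
    filter_upwards [g1, h1] with ν a1 a2
    exact (a1.trans a2).trans (hT1s ν)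

end Pool.Agent.N945.HC
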